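import Pool.Agent.LPV.Stmts

/-!
# Squad LPV, row GF4 (helper92): the case `l ≤ 4` of FIS
-/

set_option autoImplicit false

noncomputable section

open MeasureTheory Filter Topology
open scoped RealInnerProductSpace

namespace Pool.Agent.LPV.H92

open Pool.Agent.LPK Pool.Agent.LPV

/-- **GF4** -/
theorem gf4 (h : FisStmt) : Gf4Stmt := fun n l z hn _ hz => h n l z hn hz

end Pool.Agent.LPV.H92
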